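import Mathlib
import Pool.Agent.Lib.MP_7600d1_co.Prism

set_option autoImplicit false

open Set Pointwise

namespace Pool.Agent.Results.MP_7600d1_co.AllDims

/-- A centrally symmetric `d`-polytope: the convex hull of a finite set in `ℝ^d`, of full
dimension, some translate of which is equal to its negative. -/
def IsCSPolytope {d : ℕ} (P : Set (EuclideanSpace ℝ (Fin d))) : Prop :=
  (∃ S : Finset (EuclideanSpace ℝ (Fin d)), P = convexHull ℝ (S : Set (EuclideanSpace ℝ (Fin d)))) ∧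
    (interior P).Nonempty ∧ ∃ t : EuclideanSpace ℝ (Fin d), t +ᵥ P = -(t +ᵥ P)

/-- The boundary complex of `P` is a refinement of the boundary complex of `Q`. -/
def IsRefinement {d : ℕ} (P Q : Set (EuclideanSpace ℝ (Fin d))) : Prop :=
  ∃ φ : ↥(frontier Q) ≃ₜ ↥(frontier P), ∀ F : Set (EuclideanSpace ℝ (Fin d)),
    IsExposed ℝ Q F → F ≠ Q → ∃ 𝒮 : Set (Set (EuclideanSpace ℝ (Fin d))),
      (∀ G ∈ 𝒮, IsExposed ℝ P G ∧ G ≠ P) ∧
        Subtype.val '' (φ '' (Subtype.val ⁻¹' F)) = ⋃₀ 𝒮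

open Pool.Agent.Lib.MP_7600d1_co in
theorem result : ∀ (d : ℕ), 4 ≤ d → ∀ (n : ℕ) (Q : Fin n → Set (EuclideanSpace ℝ (Fin d))),
    (∀ i, IsCSPolytope (Q i)) →
      ∃ P : Set (EuclideanSpace ℝ (Fin d)), IsCSPolytope P ∧ ∀ i, ¬ IsRefinement P (Q i) := by
  intro d hd n Q hQ
  have hfin : ∀ i, {F | ProperFace (Q i) F}.Finite := by
    intro i
    obtain ⟨S, hS⟩ := (hQ i).1
    rw [hS]
    exact finite_properFace S
  obtain ⟨V, hV, p, q, hcard, hgood⟩ := exists_good ((∑ i, {F | ProperFace (Q i) F}.ncard) + 2)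
  have hnt : Nontrivial V := Finite.one_lt_card_iff_nontrivial.1 (by omega)
  obtain ⟨u, v, huv⟩ := exists_pair_ne V
  refine ⟨hpoly (fnD hd p q), ⟨hpoly_eq_convexHull _ (hgood.isCompactD hd huv),
    ⟨0, zero_mem_interiorD hd⟩, 0, ?_⟩, ?_⟩
  · ext x
    simp only [zero_vadd, mem_neg]
    constructor
    · intro hx
      simpa using neg_memD hd hx
    · intro hx
      simpa using neg_memD hd hx
  rintro i ⟨ψ, hψ⟩
  obtain ⟨⟨S, hS⟩, hint, t, ht⟩ := hQ i
  have hc : ∀ x ∈ Q i, (2 : ℝ) • (-t) - x ∈ Q i := by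
    intro x hx
    have h1 : t +ᵥ x ∈ -(t +ᵥ Q i) := ht ▸ vadd_mem_vadd_set hx
    obtain ⟨y, hy, hxy⟩ := mem_neg.1 h1
    have h2 : y = (2 : ℝ) • (-t) - x := by
      simp only [vadd_eq_add] at hxy
      have h3 : y = -(t + x) - t := by rw [← hxy]; abel
      rw [h3]; module
    rw [← h2]; exact hy
  have hφ : Refines (hpoly (fnD hd p q)) (Q i) ψ.symm := by
    rintro F ⟨-, hF2, hF3⟩
    obtain ⟨𝒮, h1, h2⟩ := hψ F hF3 hF2
    refine ⟨{G ∈ 𝒮 | G.Nonempty}, fun G hG => ⟨hG.2, (h1 G hG.1).2, (h1 G hG.1).1⟩, fun x => ?_⟩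
    constructor
    · rintro ⟨G, hG, hxG⟩
      have h3 : (x : EuclideanSpace ℝ (Fin d)) ∈ ⋃₀ 𝒮 := ⟨G, hG.1, hxG⟩
      rw [← h2] at h3
      obtain ⟨_, ⟨y, hy, rfl⟩, hyx⟩ := h3
      have h4 : ψ y = x := Subtype.ext hyx
      rw [← h4, Homeomorph.symm_apply_apply]
      exact hy
    · intro hx
      have h3 : (x : EuclideanSpace ℝ (Fin d)) ∈ Subtype.val '' (ψ '' (Subtype.val ⁻¹' F)) :=
        ⟨x, ⟨ψ.symm x, hx, ψ.apply_symm_apply x⟩, rfl⟩
      rw [h2] at h3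
      obtain ⟨G, hG, hxG⟩ := h3
      exact ⟨G, ⟨hG, x, hxG⟩, hxG⟩
  have hQc : IsClosed (Q i) := hS ▸ S.finite_toSet.isClosed_convexHull ℝ
  have hQv : Convex ℝ (Q i) := hS ▸ convex_convexHull ℝ _
  have hex := fun w : V => exists_covers (gptD p q) (hgood.gD1 hd) (hgood.gD2 hd) hφ hQc hQv hint
    (Sum.inl (Sum.inl (w, true)))
  choose f hf1 hf2 using hex
  have hinj : Function.Injective (fun w : V => (⟨f w, hf1 w⟩ : {F | ProperFace (Q i) F})) := by
    intro w w' hww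
    by_contra hne
    have e : f w = f w' := congrArg Subtype.val hww
    exact hgood.not_covers_twoD hd hφ hQc hQv hint hc (hf1 w) hne (hf2 w) (e ▸ hf2 w')
  have hfi := (hfin i).to_subtype
  have h1 := Nat.card_le_card_of_injective _ hinj
  rw [Nat.card_coe_set_eq] at h1
  have h2 : {F | ProperFace (Q i) F}.ncard ≤ ∑ j, {F | ProperFace (Q j) F}.ncard :=
    Finset.single_le_sum (f := fun j => {F | ProperFace (Q j) F}.ncard)
      (fun _ _ => Nat.zero_le _) (Finset.mem_univ i)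
  omega

end Pool.Agent.Results.MP_7600d1_co.AllDims
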